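import Pool.Agent.H621.RK.Tex
import Pool.Agent.R917.OM.Grp

set_option autoImplicit false

/-!
# The periods of an abelian variety relative to an arbitrary motive

Let `M₀` be any motive over the field `ℚ̄` of algebraic numbers, pure or mixed, for example
`M₀ = H^*(X)`. Only its comparison isomorphism is used: an invertible complex matrix `C` of size `r`,
about which nothing is assumed. Let `A` be an abelian variety over `ℚ̄`. The period conjecture says
that the comparison isomorphism of `M₀ ⊕ H_1(A)` is a generic point, over `ℚ̄`, of a torsor under the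
motivic Galois group of `M₀ ⊕ H_1(A)`. The consequences which can be formulated without knowing the
periods of `M₀` are statements about the algebraic groups `G` over `ℚ` with a torsor over `ℚ̄` which
contains the comparison isomorphism: they must contain `1 × N`, if the motivic Galois group does.

If the motivic Galois groups of `M₀` and `H_1(A)` have no common quotient other than the obvious ones
(the weight), then `1 × Hg(A)` is contained in the motivic Galois group of `M₀ ⊕ H_1(A)`, where
`Hg(A)` is the Hodge group of `A`. In general this is true for `1 × N`, with a normal subgroup `N` of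
`Hg(A)` such that `Hg(A) / N` is a subquotient of the motivic Galois group of `M₀`, so that the rank
of `Hg(A) / N` is at most `∑ l, ⌊r_l / 2⌋` if `M₀` has a filtration with graded pieces of the ranks
`r_l`: a compact torus in `GL_r(ℝ)` has the rank at most `⌊r / 2⌋`.

**Theorem.** Let `C` be block triangular with blocks of sizes `r_l`, let `A` be any abelian variety
over `ℚ̄`, and let `G ⊆ GL_{r + 2g}` be any algebraic group over `ℚ` with a torsor over `ℚ̄` which
contains the matrix `C ⊕ (periods of A)`. There are a subalgebra `𝔥` of the Lie algebra `𝔤` of the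
Hodge group of `A`, which acts semisimply on `H_1(A, ℚ)` with the commutant `End(A) ⊗ ℚ`, and an
ideal `𝔫` of `𝔥` such that `G` contains `1 × exp(Y)` for all `Y ∈ 𝔫 ⊗ ℂ`, and such that `𝔥 / 𝔫` has
the (compact) rank at most `∑ l, ⌊r_l / 2⌋`: for every compact torus in `exp (𝔥 ⊗ ℝ)` of dimension `n`
the cocharacters in `𝔫 ⊗ ℂ` form a space of dimension at least `n - ∑ l, ⌊r_l / 2⌋`. Moreover `𝔥` and
`𝔫` are algebraic Lie algebras in the sense of Chevalley: closed under replicas. If all `r_l ≤ 1`,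
that is, if `M₀` is a successive extension of objects of rank one, then `𝔫 = 𝔥`. If `A` is a factor
of a determined abelian variety, then `𝔥 ⊗ ℂ` contains the complex structure.

Here an abelian variety `A` is called determined if `𝔤` has no proper algebraic subalgebras which act
semisimply on `H_1(A, ℚ)`, with the same commutant. So `𝔥 = 𝔤` in this case.

**Corollary 1** (`rank_one`). If all `r_l ≤ 1` (for example for mixed Tate motives `M₀`), and `A` is a
factor of a determined abelian variety, then `1 × Hg(A) ⊆ G`.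

**Corollary 2** (`determined_torus`). If `A` is determined, then every compact torus of dimension `n`
in the Hodge group of `A` contains a torus `T` of dimension at least `n - ∑ l, ⌊r_l / 2⌋` such that
`1 × T ⊆ G`.

**Corollary 3** (`determined_simple`). If `A` is determined, and `Hg(A)` is simple over `ℚ` and
contains a compact torus of dimension greater than `∑ l, ⌊r_l / 2⌋`, then `1 × Hg(A) ⊆ G`.

It was shown in the file `OneMotivesMumfordTate` of the problem `MP_5d33ca_ag` that the following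
abelian varieties are determined:

* products of elliptic curves, with or without complex multiplication, and of abelian varieties with
  real or (totally indefinite) quaternion multiplication of maximal rank,
* Kuga-Satake varieties of Hodge structures of K3 type with totally real field of endomorphisms `F`,
  of rank not five over `F`, or with a general CM field of endomorphisms, general abelian fourfolds of
  Weil type,
* simple abelian varieties with complex multiplication by a field `K` such that the odd part of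
  `ℚ ^ Hom(K, ℂ)` is an irreducible representation of the Galois group. All simple abelian threefolds
  with complex multiplication are factors of determined abelian varieties.

For example, if `A` is a product of elliptic curves which are not isogenous, then the algebraic ideals
of `𝔤` are the sums of the Lie algebras of the Hodge groups of some of the curves, and `G` contains
`1 × Hg(E_i)` for all but at most `∑ l, ⌊r_l / 2⌋` of the elliptic curves, with complex
multiplication or not. If `A` has complex multiplication as above, then Corollary 3 says that `G`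
contains `1 × Hg(A)` if `dim A > ∑ l, ⌊r_l / 2⌋`, for example if `dim A > r / 2`. This is sharp: for
`M₀ = H_1(A)` one has `r / 2 = dim A`, and the graph of the identity gives a group `G` which does not
contain `1 × Hg(A)`. Corollary 1 says that the periods of the abelian varieties `A` which are factors
of determined abelian varieties are independent of the periods of mixed Tate motives (multiple zeta
values, values of polylogarithms at algebraic arguments), in the sense of torsors.

The case `r = 0` of Corollary 1 is known for products of elliptic curves (Kreutz, Shen, Vial). The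
point is that nothing is assumed about `C`.

## Proof

1. Let `Lie G` be the space of the matrices which stabilize the polynomials vanishing on `G`. It
contains the matrices `D(c) c⁻¹` for the derivations `D` of `ℂ` over `ℚ̄`. Let `𝔥` be the set of
the elements `Y` of `𝔤` with `(x, Y) ∈ Lie G` for some `x`. The elements of `Lie G` need not be
semisimple, and nothing is known about `x`. We prove Chevalley's theorem on replicas in the
following form: if `(X - a)` are the linear factors of an annihilating polynomial of `M ∈ Lie G`,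
`σ : ℂ → ℂ` is additive, and `Q` is a polynomial with `Q ≡ σ(a)` modulo `(X - a)^N` for all `a`, then
`Q(M) ∈ Lie G` (`stab_rep`). It follows that `𝔥` is closed under replicas, and the replica for
`σ = Re` gives a lift `(x, 1) ∈ Lie G` of the weight, since the centre of `𝔤` has imaginary
eigenvalues. By the theorem of Wüstholz `𝔥` is semisimple with the commutant `End(A) ⊗ ℚ`.

2. Let a compact torus of dimension `n` in `𝔥 ⊗ ℝ` have the generators `Y_j`, with real lifts
`(x_j, Y_j)`, and let `t_j` be real numbers which are linearly independent over `ℚ`. The eigenvalues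
of the block triangular real matrix `x = ∑ t_j x_j` are complex conjugate in pairs in each of the
blocks. So the imaginary numbers in the `ℚ`-span of the eigenvalues of `x` form a space of
dimension at most `∑ l, ⌊r_l / 2⌋` (`imag_count`). For the additive maps `σ` which vanish on
the eigenvalues of `x` the replica of `(x, ∑ t_j Y_j)` is `(0, Y)`, and `Y` is a cocharacter of
the torus, if `σ` has rational values on the numbers `i t_j` (`torus`).

3. If all `r_l ≤ 1`, the derived algebra of `𝔥` is perfect, and its elements have lifts `(x, Y)` with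
`x = 0`, as commutators of triangular matrices. The centre of `𝔥` has imaginary eigenvalues,
and `x` has real eigenvalues for a real lift, so that a replica gives `(0, Y)` (`hb_le_nn`).
-/

open Module Matrix Pool.Agent.Y102 Pool.Agent.W516.DR Pool.Agent.H204R3.GP

noncomputable section

namespace Pool.Agent.Results.MP_57341d_ag.RankBound

section Hyp

variable {g : ℕ} (A : AbVar g)

/-! ### The Lie algebra of the Hodge group

All matrices act from the right, on rows. -/

/-- The rational matrices which act on `H_1(A, ℚ) = ℚ^(2g)` (the basis is the basis of the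
lattice). -/
abbrev Mat (g : ℕ) : Type := Matrix (Fin (2 * g)) (Fin (2 * g)) ℚ

/-- The complex matrices which act on `H_1(A, ℂ) = ℂ^(2g)`. -/
abbrev MatC (g : ℕ) : Type := Matrix (Fin (2 * g)) (Fin (2 * g)) ℂ

/-- The multilinear forms in `2m` variables in the rational homology. -/
abbrev Form (m : ℕ) : Type := MultilinearMap ℚ (fun _ : Fin m × Fin 2 => A.H1) ℚ

/-- `φ` is a de Rham-Betti class in `H^1(A) ^ {⊗ 2m} (m)`. -/
def IsDRB {m : ℕ} (φ : Form A m) : Prop :=
  IsDeRhamBettiForm QBar A.dR (2 * Real.pi * Complex.I) m φ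

/-- `φ` is a Hodge class in `H^1(A) ^ {⊗ 2m} (m)`. -/
def IsHodge {m : ℕ} (φ : Form A m) : Prop := IsHodgeTensor (A.per : A.H1 →+ (Fin g → ℂ)) φ

/-- The matrix `X` annihilates the form `φ` (as a derivation). -/
def Annihilates {m : ℕ} (X : Mat g) (φ : Form A m) : Prop :=
  ∀ v : Fin m × Fin 2 → Fin (2 * g) → ℚ, ∑ k, φ (Function.update v k (v k ᵥ* X)) = 0

/-- `X` is in the Lie algebra `𝔤` of the Hodge group: it annihilates all classes that are Hodge
classes and de Rham-Betti classes (by the theorem of Deligne all Hodge classes are de Rham-Betti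
classes). -/
def InLie (X : Mat g) : Prop :=
  ∀ (m : ℕ) (φ : Form A m), IsHodge A φ → IsDRB A φ → Annihilates A X φ

/-- The subspace `𝔥` is a Lie algebra contained in `𝔤`. -/
def IsSubalgebra (𝔥 : Submodule ℚ (Mat g)) : Prop :=
  (∀ X ∈ 𝔥, InLie A X) ∧ ∀ X ∈ 𝔥, ∀ Y ∈ 𝔥, X * Y - Y * X ∈ 𝔥

/-- The subspace `U` of the homology is stable under the elements of `𝔥`. -/
def Stable (𝔥 : Submodule ℚ (Mat g)) (U : Submodule ℚ (Fin (2 * g) → ℚ)) : Prop :=
  ∀ X ∈ 𝔥, ∀ u ∈ U, u ᵥ* X ∈ U

/-- The action of `𝔥` on the homology is semisimple. -/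
def IsSemisimple (𝔥 : Submodule ℚ (Mat g)) : Prop :=
  ∀ U, Stable 𝔥 U → ∃ U', Stable 𝔥 U' ∧ IsCompl U U'

/-- Every matrix which commutes with `𝔥` commutes with `𝔤`. -/
def SameCommutant (𝔥 : Submodule ℚ (Mat g)) : Prop :=
  ∀ P : Mat g, (∀ X ∈ 𝔥, X * P = P * X) → ∀ X : Mat g, InLie A X → X * P = P * X

/-- The complex matrix of a rational matrix. -/
def cplx (X : Mat g) : MatC g := X.map (algebraMap ℚ ℂ)

/-- The complex matrices in `𝔥 ⊗ ℂ`. -/
def complexSpan (𝔥 : Submodule ℚ (Mat g)) : Submodule ℂ (MatC g) :=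
  Submodule.span ℂ {Y | ∃ Z ∈ 𝔥, Y = cplx Z}

/-- `𝔥` is closed under the replicas of its diagonalizable elements. Let `X ∈ 𝔥` be diagonalizable
over `ℂ`, with eigenvalues in the finite set `S`, let `σ : ℂ → ℂ` be additive, and let `Q` be a
polynomial with `Q(a) = σ(a)` for all `a ∈ S`. Then the matrix `Q(X)` is in the complex span of
`𝔥`. -/
def IsReplicaClosed (𝔥 : Submodule ℚ (Mat g)) : Prop :=
  ∀ X ∈ 𝔥, ∀ (S : Finset ℂ) (σ : ℂ →+ ℂ) (Q : Polynomial ℂ),
    Polynomial.aeval (cplx X) (∏ a ∈ S, (Polynomial.X - Polynomial.C a)) = 0 →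
    (∀ a ∈ S, Q.eval a = σ a) → Polynomial.aeval (cplx X) Q ∈ complexSpan 𝔥

/-- The Hodge group of `A` is determined by the endomorphisms of `A`: its Lie algebra `𝔤` has no
proper algebraic subalgebra `𝔥` which acts semisimply on the homology and has the same
commutant. -/
def Determined : Prop := ∀ 𝔥 : Submodule ℚ (Mat g), IsSubalgebra A 𝔥 → IsReplicaClosed 𝔥 →
  IsSemisimple 𝔥 → SameCommutant A 𝔥 → ∀ X, InLie A X → X ∈ 𝔥

/-- `𝔫` is an ideal of `𝔥`. -/
def IsIdeal (𝔥 𝔫 : Submodule ℚ (Mat g)) : Prop :=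
  𝔫 ≤ 𝔥 ∧ ∀ X ∈ 𝔥, ∀ Y ∈ 𝔫, X * Y - Y * X ∈ 𝔫

/-- The Hodge group of `A` is simple over `ℚ`: its Lie algebra has no algebraic ideals except for the
trivial ones. -/
def IsSimple : Prop := ∀ 𝔫 : Submodule ℚ (Mat g), (∀ Y ∈ 𝔫, InLie A Y) →
  (∀ X, InLie A X → ∀ Y ∈ 𝔫, X * Y - Y * X ∈ 𝔫) → IsReplicaClosed 𝔫 →
    𝔫 = ⊥ ∨ ∀ X, InLie A X → X ∈ 𝔫

/-! ### Factors -/

/-- `f` is a homomorphism (up to isogeny) from `A` to `B`: it is given by a linear map of the tangent
spaces, and the pull backs of the algebraic differential forms are algebraic. -/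
def IsHomomorphism {g' : ℕ} (B : AbVar g') (f : A.H1 →ₗ[ℚ] B.H1) : Prop :=
  (∃ F : (Fin g → ℂ) →ₗ[ℂ] (Fin g' → ℂ), ∀ w, F (A.per w) = B.per (f w)) ∧
    ∃ e : Fin g' ⊕ Fin g' → Fin g ⊕ Fin g → QBar,
      ∀ i w, B.dR i (f w) = ∑ j, algebraMap QBar ℂ (e i j) * A.dR j w

/-- `A` is a direct factor of `B`, up to isogeny. -/
def IsFactor {g' : ℕ} (B : AbVar g') : Prop :=
  ∃ (f : A.H1 →ₗ[ℚ] B.H1) (p : B.H1 →ₗ[ℚ] A.H1), IsHomomorphism A B f ∧
    IsHomomorphism B A p ∧ ∀ w, p (f w) = w

/-! ### Algebraic groups which contain the periods -/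

/-- The basis of the Betti realization of `M₀ ⊕ H_1(A)`. -/
abbrev Betti (r g : ℕ) : Type := Fin r ⊕ Fin (2 * g)

/-- The basis of the de Rham realization of `M₀ ⊕ H_1(A)`. -/
abbrev DeRham (r g : ℕ) : Type := Fin r ⊕ (Fin g ⊕ Fin g)

/-- The comparison isomorphism of `M₀ ⊕ H_1(A)`: the matrix `C` and the periods and quasi-periods of
the abelian variety. -/
def periodMatrix {r : ℕ} (C : Matrix (Fin r) (Fin r) ℂ) : Matrix (Betti r g) (DeRham r g) ℂ :=
  fromBlocks C 0 0 (Matrix.of fun j k => Sum.elim (A.lam j) (A.η j) k)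

/-- A subgroup of `GL_R(ℂ)` defined by polynomials with rational coefficients. -/
def IsAlgebraicSubgroup {R : Type} [Fintype R] [DecidableEq R] (G : Subgroup (GL R ℂ)) : Prop :=
  ∃ I : Set (MvPolynomial (R × R) ℚ), ∀ x : GL R ℂ, x ∈ G ↔
    ∀ p ∈ I, MvPolynomial.aeval (fun b : R × R => (x : Matrix R R ℂ) b.1 b.2) p = 0

/-- The comparison isomorphism `c` is an element of a torsor `G · T⁻¹` of `G`, defined over the
algebraic numbers: `T` is a matrix with algebraic entries (an isomorphism between the Betti side and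
the de Rham side) such that `c T ∈ G`. -/
def ContainsPeriods {r : ℕ} (C : Matrix (Fin r) (Fin r) ℂ) (G : Subgroup (GL (Betti r g) ℂ)) :
    Prop := ∃ T : Matrix (DeRham r g) (Betti r g) ℂ, (∀ i j, IsAlgebraic ℚ (T i j)) ∧
    ∃ x ∈ G, (x : Matrix (Betti r g) (Betti r g) ℂ) = periodMatrix A C * T

/-- The matrix of the multiplication by the complex number `z` on the tangent space
`H_1(A, ℝ) = ℂ ^ g`, in the basis of the lattice: the Hodge structure. -/
def hodge (z : ℂ) : MatC g := Matrix.of fun i j => ((A.lam.repr (z • A.lam i) j : ℝ) : ℂ)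

/-- The Hodge group: the smallest algebraic group over `ℚ` which contains the image of the circle
under the Hodge structure. -/
def hodgeGroup : Subgroup (GL (Fin (2 * g)) ℂ) :=
  sInf {G | IsAlgebraicSubgroup G ∧ ∀ z : ℂ, ‖z‖ = 1 → ∃ x ∈ G, (x : MatC g) = hodge A z}

/-- The group `G` contains the element `1 × M`. -/
def Contains {r : ℕ} (G : Subgroup (GL (Betti r g) ℂ)) (M : MatC g) : Prop :=
  ∃ y ∈ G, (y : Matrix (Betti r g) (Betti r g) ℂ) = fromBlocks 1 0 0 M

/-! ### Compact tori

A torus of dimension `n` is given by projectors `P_a`, which decompose the homology into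
eigenspaces, and the weights `w_a ∈ ℤ ^ n`. -/

/-- The element of the torus with the parameters `z`. -/
def torusElement {m n : ℕ} (P : Fin m → MatC g) (w : Fin m → Fin n → ℤ) (z : Fin n → ℂ) : MatC g :=
  ∑ a, (∏ j, z j ^ w a j) • P a

/-- The cocharacter with the coefficients `c`, as an element of the Lie algebra. -/
def cocharacter {m n : ℕ} (P : Fin m → MatC g) (w : Fin m → Fin n → ℤ) (c : Fin n → ℚ) : MatC g :=
  ∑ a, (∑ j, (w a j : ℂ) * (c j : ℂ)) • P a

/-- The projectors decompose the homology, and the elements with `|z_j| = 1` are real. -/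
structure IsTorus {m n : ℕ} (P : Fin m → MatC g) (w : Fin m → Fin n → ℤ) : Prop where
  sum : ∑ a, P a = 1
  mul : ∀ a b, P a * P b = if a = b then P a else 0
  real : ∀ z : Fin n → ℂ, (∀ j, ‖z j‖ = 1) →
    ∀ i j, (starRingEnd ℂ) (torusElement P w z i j) = torusElement P w z i j

/-- The torus acts effectively, up to a finite group: every nonzero cocharacter has a nonzero weight
in one of the eigenspaces. -/
def IsEffective {m n : ℕ} (P : Fin m → MatC g) (w : Fin m → Fin n → ℤ) : Prop :=
  ∀ c : Fin n → ℚ, c ≠ 0 → ∃ a, P a ≠ 0 ∧ ∑ j, (w a j : ℚ) * c j ≠ 0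

/-- The compact torus is contained in the Hodge group. -/
def InHodgeGroup {m n : ℕ} (P : Fin m → MatC g) (w : Fin m → Fin n → ℤ) : Prop :=
  ∀ z : Fin n → ℂ, (∀ j, ‖z j‖ = 1) → ∃ x ∈ hodgeGroup A, (x : MatC g) = torusElement P w z

end Hyp

/-! ### Proofs -/

section Prf

open Pool.Agent.R917.DT Pool.Agent.R917.EC Pool.Agent.H621.RK Pool.Agent.R917

variable {g : ℕ} (A : AbVar g)

/-- The matrix of an endomorphism of the homology. -/
def mat (X : Module.End ℚ A.H1) : Mat g := (LinearMap.toMatrix' X)ᵀ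

theorem vecMul_mat (X : Module.End ℚ A.H1) (v : Fin (2 * g) → ℚ) : v ᵥ* mat A X = X v := by
  unfold mat
  rw [Matrix.vecMul_transpose]
  exact LinearMap.toMatrix'_mulVec X v

theorem mat_mul (X Y : Module.End ℚ A.H1) : mat A (X * Y) = mat A Y * mat A X := by
  unfold mat
  rw [← Matrix.transpose_mul]
  exact congrArg Matrix.transpose (LinearMap.toMatrix'_mul X Y)

/-- the matrices of the endomorphisms -/
def matL : Module.End ℚ A.H1 ≃ₗ[ℚ] Mat g :=
  (LinearMap.toMatrix' : _ ≃ₗ[ℚ] Mat g).trans (Matrix.transposeLinearEquiv _ _ ℚ ℚ)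

theorem matL_apply (X : Module.End ℚ A.H1) : matL A X = mat A X := rfl

theorem mat_br (X Y : Module.End ℚ A.H1) :
    mat A (X * Y - Y * X) = mat A Y * mat A X - mat A X * mat A Y := by
  rw [← mat_mul, ← mat_mul]
  exact map_sub (matL A) _ _

theorem mat_inj {X Y : Module.End ℚ A.H1} (h : mat A X = mat A Y) : X = Y :=
  (matL A).injective h

theorem mat_surj (X : Mat g) : ∃ Y : Module.End ℚ A.H1, mat A Y = X :=
  (matL A).surjective X

theorem inLie_mat {X : Module.End ℚ A.H1} : InLie A (mat A X) ↔ X ∈ A.NA := by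
  constructor
  · intro h m φ h1 h2 v
    have h3 := h m φ h1 h2 v
    simp only [vecMul_mat] at h3
    exact h3
  · intro h m φ h1 h2 v
    simp only [vecMul_mat]
    exact h m φ h1 h2 v

theorem cplx_mat (X : Module.End ℚ A.H1) : cplx (mat A X) = rm X := by
  rw [rm_eq, toC_eq]
  rfl

/-- the space of the matrices -/
def mm (𝔥 : Submodule ℚ (Module.End ℚ A.H1)) : Submodule ℚ (Mat g) := 𝔥.map (matL A).toLinearMap

theorem mem_mm {𝔥 : Submodule ℚ (Module.End ℚ A.H1)} (X : Module.End ℚ A.H1) :
    mat A X ∈ mm A 𝔥 ↔ X ∈ 𝔥 := by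
  constructor
  · rintro ⟨Y, hY, hYX⟩
    rw [← mat_inj A hYX]
    exact hY
  · intro hX
    exact ⟨X, hX, rfl⟩

theorem span_mm (𝔥 : Submodule ℚ (Module.End ℚ A.H1)) :
    complexSpan (mm A 𝔥) = Submodule.span ℂ {Y | ∃ Z ∈ 𝔥, Y = rm Z} := by
  unfold complexSpan
  congr 1
  ext Y
  constructor
  · rintro ⟨Z, ⟨X, hX, rfl⟩, rfl⟩
    exact ⟨X, hX, cplx_mat A X⟩
  · rintro ⟨Z, hZ, rfl⟩
    exact ⟨mat A Z, (mem_mm A Z).2 hZ, (cplx_mat A Z).symm⟩

theorem mm_RC {𝔥 : Submodule ℚ (Module.End ℚ A.H1)} (hRC : RC 𝔥) : IsReplicaClosed (mm A 𝔥) := by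
  rintro _ ⟨Y, hY, rfl⟩ S σ Q hS hQ
  rw [span_mm]
  change Polynomial.aeval (cplx (mat A Y)) _ = 0 at hS
  change Polynomial.aeval (cplx (mat A Y)) Q ∈ _
  rw [cplx_mat] at hS ⊢
  exact rc_iff'.1 hRC Y hY S σ Q hS hQ

theorem mm_semi {𝔥 : Submodule ℚ (Module.End ℚ A.H1)} (h : A.Full 𝔥) :
    IsSemisimple (mm A 𝔥) := by
  intro U hU
  obtain ⟨U', h1, h2⟩ := h.semi U (fun Y hY u hu => by
    have h3 := hU _ ((mem_mm A Y).2 hY) u hu
    rwa [vecMul_mat] at h3)
  refine ⟨U', ?_, h2⟩
  rintro _ ⟨Y, hY, rfl⟩ u hu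
  have h3 := h1 Y hY u hu
  rwa [← vecMul_mat] at h3

theorem mm_comm {𝔥 : Submodule ℚ (Module.End ℚ A.H1)} (h : A.Full 𝔥) :
    SameCommutant A (mm A 𝔥) := by
  intro P hP Y hY
  obtain ⟨P, rfl⟩ := mat_surj A P
  obtain ⟨Y, rfl⟩ := mat_surj A Y
  rw [← mat_mul, ← mat_mul]
  congr 1
  refine (h.comm P (fun Z hZ => mat_inj A ?_) Y ((inLie_mat A).1 hY)).symm
  rw [mat_mul, mat_mul]
  exact (hP _ ((mem_mm A Z).2 hZ)).symm

theorem mm_sub {𝔥 : Submodule ℚ (Module.End ℚ A.H1)} (h : A.Full 𝔥) :
    IsSubalgebra A (mm A 𝔥) := by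
  refine ⟨?_, ?_⟩
  · rintro _ ⟨Y, hY, rfl⟩
    exact (inLie_mat A).2 (h.le hY)
  · rintro _ ⟨Y, hY, rfl⟩ _ ⟨Z, hZ, rfl⟩
    have h1 := (mem_mm A (Z * Y - Y * Z)).2 (h.br Z hZ Y hY)
    rw [mat_br] at h1
    exact h1

theorem det_of_determined (hA : Determined A) : Det A := by
  intro 𝔥 h hRC X hX
  rw [← mem_mm A]
  exact hA _ (mm_sub A h) (mm_RC A hRC) (mm_semi A h) (mm_comm A h) _ ((inLie_mat A).2 hX)

variable {A}

/-! ### Tori -/

theorem isAlg_fx {κ : Type} [Fintype κ] [DecidableEq κ] (c : (κ → Fin (2 * g)) → ℚ) :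
    ∃ G : Subgroup (GL (Fin (2 * g)) ℂ), IsAlgebraicSubgroup G ∧
      ∀ x : GL (Fin (2 * g)) ℂ, x ∈ G ↔ Fx c (x : MatC g) := by
  refine ⟨{ carrier := {x | Fx c (x : MatC g)}
            one_mem' := Fx_one c
            mul_mem' := fun {x y} hx hy => Fx_mul hx hy
            inv_mem' := fun {x} hx => Fx_inv (M := (x : MatC g)) (by
              rw [← Units.val_mul, inv_mul_cancel, Units.val_one]) hx },
    ⟨eqs c, fun x => Fx_iff c (x : MatC g)⟩, fun x => Iff.rfl⟩

/-- The elements of the Hodge group fix the Hodge tensors. -/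
theorem fx_of_hodgeGroup {κ : Type} [Fintype κ] [DecidableEq κ]
    {ψ : MultilinearMap ℚ (fun _ : κ => A.H1) ℚ}
    (hψ : IsHodgeTensor (A.per : A.H1 →+ (Fin g → ℂ)) ψ) {x : GL (Fin (2 * g)) ℂ}
    (hx : x ∈ hodgeGroup A) : Fx (cf (A := A) ψ) (x : MatC g) := by
  obtain ⟨G, hG, h1⟩ := isAlg_fx (cf (A := A) ψ)
  rw [← h1]
  have hle : hodgeGroup A ≤ G := by
    refine sInf_le ⟨hG, fun z hz => ?_⟩
    have hz0 : z ≠ 0 := by
      rintro rfl
      rw [norm_zero] at hz
      exact zero_ne_one hz
    let x : GL (Fin (2 * g)) ℂ := ⟨hm A z, hm A z⁻¹, by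
      rw [← hm_mul, mul_inv_cancel₀ hz0, hm_one], by
      rw [← hm_mul, inv_mul_cancel₀ hz0, hm_one]⟩
    exact ⟨x, (h1 x).2 (Fx_hodge hψ hz), rfl⟩
  exact hle hx

/-- the group of the block matrices -/
def blk (r g : ℕ) : MatC g →* Matrix (Betti r g) (Betti r g) ℂ where
  toFun x := fromBlocks 1 0 0 x
  map_one' := fromBlocks_one
  map_mul' x y := by
    rw [fromBlocks_multiply]
    simp only [Matrix.mul_zero, Matrix.zero_mul, add_zero, zero_add, Matrix.one_mul]

/-- the entries of the block matrices -/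
def ent (r g : ℕ) (b : Betti r g × Betti r g) : MvPolynomial (Fin (2 * g) × Fin (2 * g)) ℚ :=
  match b with
  | (Sum.inl i, Sum.inl j) => if i = j then 1 else 0
  | (Sum.inr i, Sum.inr j) => MvPolynomial.X (i, j)
  | _ => 0

theorem aeval_ent {r : ℕ} (x : MatC g) (b : Betti r g × Betti r g) :
    MvPolynomial.aeval (fun c : Fin (2 * g) × Fin (2 * g) => x c.1 c.2) (ent r g b) =
      blk r g x b.1 b.2 := by
  obtain ⟨i | i, j | j⟩ := b
  · change MvPolynomial.aeval _ (if i = j then 1 else 0) = (1 : Matrix (Fin r) (Fin r) ℂ) i j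
    rw [Matrix.one_apply]
    split_ifs
    · exact map_one _
    · exact map_zero _
  · exact map_zero _
  · exact map_zero _
  · exact MvPolynomial.aeval_X _ _

theorem isAlg_comap {r : ℕ} {G : Subgroup (GL (Betti r g) ℂ)} (hG : IsAlgebraicSubgroup G) :
    IsAlgebraicSubgroup (G.comap (Units.map (blk r g))) := by
  obtain ⟨I, hI⟩ := hG
  refine ⟨(fun p => MvPolynomial.bind₁ (ent r g) p) '' I, fun x => ?_⟩
  rw [Subgroup.mem_comap, hI]
  have key : ∀ p : MvPolynomial (Betti r g × Betti r g) ℚ,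
      MvPolynomial.aeval (fun c : Fin (2 * g) × Fin (2 * g) => (x : MatC g) c.1 c.2)
        (MvPolynomial.bind₁ (ent r g) p) = MvPolynomial.aeval (fun b : Betti r g × Betti r g =>
          ((Units.map (blk r g) x : GL (Betti r g) ℂ) : Matrix (Betti r g) (Betti r g) ℂ)
            b.1 b.2) p := by
    intro p
    rw [MvPolynomial.aeval_bind₁]
    congr 2
    funext b
    exact aeval_ent _ b
  constructor
  · rintro h _ ⟨p, hp, rfl⟩
    rw [key]
    exact h p hp
  · intro h p hp
    rw [← key]
    exact h _ ⟨p, hp, rfl⟩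

theorem periods_of {r : ℕ} {C : Matrix (Fin r) (Fin r) ℂ} {G : Subgroup (GL (Betti r g) ℂ)}
    (hP : ContainsPeriods A C G) : ∃ T T' : Matrix (Betti r g) (Betti r g) ℂ, T * T' = 1 ∧
      (∀ i j, T' i j ∈ Pool.Agent.R917.QA) ∧ fromBlocks C 0 0 (Pool.Agent.R917.PM A) * T ∈
        {M : Matrix (Betti r g) (Betti r g) ℂ | ∃ x ∈ G, (x : Matrix _ _ ℂ) = M} := by
  obtain ⟨T, hT, x, hx, hxT⟩ := hP
  let e : DeRham r g ≃ Betti r g := Equiv.sumCongr (Equiv.refl _) (Pool.Agent.R917.eqv g)
  have h1 : fromBlocks C 0 0 (Pool.Agent.R917.PM A) = (periodMatrix A C).submatrix id e.symm := by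
    ext i j
    rcases i with i | i <;> rcases j with j | j
    · rfl
    · rfl
    · rfl
    · obtain ⟨k, rfl⟩ := (Pool.Agent.R917.eqv g).surjective j
      rw [fromBlocks_apply₂₂, Pool.Agent.R917.PM_apply, Matrix.submatrix_apply]
      have h2 : e.symm (Sum.inr ((Pool.Agent.R917.eqv g) k)) = Sum.inr k := by
        change Sum.inr ((Pool.Agent.R917.eqv g).symm ((Pool.Agent.R917.eqv g) k)) = _
        rw [Equiv.symm_apply_apply]
      rw [h2]
      change _ = Sum.elim (A.lam i) (A.η i) k
      rcases k with k | k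
      · change A.per (Pi.single i 1) k = _
        unfold AbVar.per
        rw [Fintype.linearCombination_apply_single, one_smul]
        rfl
      · change A.eta (Pi.single i 1) k = _
        unfold AbVar.eta
        rw [Fintype.linearCombination_apply_single, one_smul]
        rfl
  have h2 : fromBlocks C 0 0 (Pool.Agent.R917.PM A) * T.submatrix e.symm id =
      periodMatrix A C * T := by
    rw [h1, Matrix.submatrix_mul_equiv, Matrix.submatrix_id_id]
  have h3 : (T.submatrix e.symm id).det ≠ 0 := by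
    intro h0
    have h3 : (x : Matrix (Betti r g) (Betti r g) ℂ).det = 0 := by
      rw [hxT, ← h2, Matrix.det_mul, h0, mul_zero]
    exact (Matrix.GeneralLinearGroup.det x).ne_zero h3
  obtain ⟨T', h6, h7⟩ := Pool.Agent.R917.OM.alg_inv' (T := T.submatrix e.symm id)
    (fun i j => hT _ _) h3
  exact ⟨_, T', h6, h7, x, hx, by rw [hxT, h2]⟩

/-- The group contains the Hodge group if its Lie algebra contains the complex structure. -/
theorem contains_hodgeGroup {r K : ℕ} {lev : Fin r → Fin K} {G : Subgroup (GL (Betti r g) ℂ)}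
    (hG : IsAlgebraicSubgroup G)
    (hJ : ((0, hm A Complex.I) : R2 r (Fin (2 * g))) ∈
      PP lev {M : Matrix (Betti r g) (Betti r g) ℂ | ∃ x ∈ G, (x : Matrix _ _ ℂ) = M}) :
    ∀ x ∈ hodgeGroup A, Contains G (x : MatC g) := by
  have hgrp := Pool.Agent.R917.algGrp_of hG
  have hle : hodgeGroup A ≤ G.comap (Units.map (blk r g)) := by
    refine sInf_le ⟨isAlg_comap hG, fun z hz => ?_⟩
    obtain ⟨y, hy, hyM⟩ := hodge_PP hgrp hJ hz
    have hz0 : z ≠ 0 := by
      rintro rfl
      rw [norm_zero] at hz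
      exact zero_ne_one hz
    let x : GL (Fin (2 * g)) ℂ := ⟨hm A z, hm A z⁻¹, by
      rw [← hm_mul, mul_inv_cancel₀ hz0, hm_one], by
      rw [← hm_mul, inv_mul_cancel₀ hz0, hm_one]⟩
    refine ⟨x, ?_, rfl⟩
    rw [Subgroup.mem_comap]
    have hxy : Units.map (blk r g) x = y := by
      apply Units.ext
      rw [hyM]
      rfl
    rw [hxy]
    exact hy
  intro x hx
  exact ⟨_, hle hx, rfl⟩

theorem cocharacter_eq {m n : ℕ} (P : Fin m → MatC g) (w : Fin m → Fin n → ℤ) (c : Fin n → ℚ) :
    cocharacter P w c = ∑ j, ((c j : ℂ) * (-Complex.I)) • gen P w j := by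
  unfold gen cocharacter
  simp only [Finset.smul_sum, smul_smul]
  rw [Finset.sum_comm]
  refine Finset.sum_congr rfl fun a _ => ?_
  rw [Finset.sum_smul]
  refine Finset.sum_congr rfl fun j _ => ?_
  congr 1
  linear_combination ((w a j : ℂ) * (c j : ℂ)) * Complex.I_mul_I

theorem gen_eq {m n : ℕ} (P : Fin m → MatC g) (w : Fin m → Fin n → ℤ) (j : Fin n) :
    gen P w j = Complex.I • cocharacter P w (Pi.single j 1) := by
  unfold gen cocharacter
  rw [Finset.smul_sum]
  refine Finset.sum_congr rfl fun a _ => ?_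
  rw [smul_smul, Finset.sum_eq_single j]
  · rw [Pi.single_eq_same, Rat.cast_one, mul_one]
    congr 1
    exact mul_comm _ _
  · intro b _ hb
    rw [Pi.single_eq_of_ne hb, Rat.cast_zero, mul_zero]
  · intro h
    exact absurd (Finset.mem_univ _) h

end Prf

open Pool.Agent.R917.DT Pool.Agent.R917.EC Pool.Agent.H621.RK Pool.Agent.R917

/-- **Theorem.** Let `C` be an invertible complex matrix with zeros below the blocks given by `lev`,
`A` an abelian variety over `ℚ̄`, and `G` an algebraic group over `ℚ` with a torsor over `ℚ̄` which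
contains the matrix `C ⊕ (periods of A)`. -/
theorem result (r K g : ℕ) (C : Matrix (Fin r) (Fin r) ℂ) (hC : IsUnit C.det)
    (lev : Fin r → Fin K) (hlev : ∀ i j, lev j < lev i → C i j = 0) (A : AbVar g)
    (G : Subgroup (GL (Betti r g) ℂ)) (hG : IsAlgebraicSubgroup G) (hP : ContainsPeriods A C G) :
    ∃ 𝔥 𝔫 : Submodule ℚ (Mat g),
      -- `𝔥` is an algebraic subalgebra of `𝔤`, semisimple with the commutant `End(A) ⊗ ℚ`
      IsSubalgebra A 𝔥 ∧ IsReplicaClosed 𝔥 ∧ IsSemisimple 𝔥 ∧ SameCommutant A 𝔥 ∧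
      -- if `A` is a factor of a determined abelian variety, then it contains the complex structure
      ((∃ (g' : ℕ) (B : AbVar g'), Determined B ∧ IsFactor A B) →
        hodge A Complex.I ∈ complexSpan 𝔥) ∧
      -- `𝔫` is an algebraic ideal of `𝔥`, and `1 × exp(𝔫 ⊗ ℂ)` is contained in `G`
      IsIdeal 𝔥 𝔫 ∧ IsReplicaClosed 𝔫 ∧
      (∀ Y ∈ complexSpan 𝔫, Contains G (NormedSpace.exp Y)) ∧
      -- the compact rank of `𝔥 / 𝔫` is at most `∑ l, ⌊r_l / 2⌋`
      (∀ (m n : ℕ) (P : Fin m → MatC g) (w : Fin m → Fin n → ℤ), IsTorus P w →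
        (∀ c, cocharacter P w c ∈ complexSpan 𝔥) →
          ∃ W : Submodule ℚ (Fin n → ℚ),
            n ≤ finrank ℚ W + ∑ l : Fin K, Fintype.card {i // lev i = l} / 2 ∧
              ∀ c ∈ W, cocharacter P w c ∈ complexSpan 𝔫) ∧
      -- there is no loss if all graded pieces have the rank one
      ((∀ l : Fin K, Fintype.card {i // lev i = l} ≤ 1) → 𝔫 = 𝔥) := by
  classical
  have h1 : C * C⁻¹ = 1 := Matrix.mul_nonsing_inv _ hC
  have hB : Pool.Agent.H621.BC.BT lev C := hlev
  have hB' : Pool.Agent.H621.BC.BT lev C⁻¹ := by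
    have hBT : C.BlockTriangular lev := fun i j hij => hlev i j hij
    letI : Invertible C := Matrix.invertibleOfIsUnitDet C hC
    have h2 := Matrix.blockTriangular_inv_of_blockTriangular hBT
    exact fun i j hij => h2 hij
  obtain ⟨T, T', hT, hT', hpt⟩ := periods_of hP
  have hgrp := Pool.Agent.R917.algGrp_of hG
  obtain ⟨P', hP1, hP2⟩ := exists_inv A
  set H : Set (Matrix (Betti r g) (Betti r g) ℂ) :=
    {M : Matrix (Betti r g) (Betti r g) ℂ | ∃ x ∈ G, (x : Matrix _ _ ℂ) = M} with hH
  have hR : PtR A lev H := ⟨hgrp, fun D => ⟨_, P', hP2, PP_der hgrp h1 hP1 hB hB' hT hT' hpt D⟩⟩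
  have hfull := hb_full hR
  refine ⟨mm A (hb A lev H), mm A (nn A lev H), mm_sub A hfull, mm_RC A (hb_RC hR),
    mm_semi A hfull, mm_comm A hfull, ?_, ⟨Submodule.map_mono nn_le_hb, ?_⟩, mm_RC A (nn_RC hR),
    ?_, ?_, ?_⟩
  · rintro ⟨g', B, hB, f, p, hf, hp, hpf⟩
    rw [span_mm]
    refine J_span fun t => J_hb hR ?_ t
    exact detJ_of_fac (f := f) (p := p) ⟨⟨hf.1, hf.2⟩, ⟨hp.1, hp.2⟩, hpf⟩ (det_of_determined B hB)
  · rintro _ ⟨X, hX, rfl⟩ _ ⟨Y, hY, rfl⟩
    have h2 := (mem_mm A (X * Y - Y * X)).2 (nn_ideal hR hX hY)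
    have h3 := (mm A (nn A lev H)).neg_mem h2
    rw [mat_br, neg_sub] at h3
    exact h3
  · intro Y hY
    rw [span_mm] at hY
    exact exp_PP hgrp (PP_of_span hY)
  · intro m n P w hPw hc
    have hgen : ∀ j, Lif lev H (gen P w j) := by
      intro j
      rw [gen_eq]
      refine Lif.smul _ ?_
      have h2 := hc (Pi.single j 1)
      rw [span_mm] at h2
      generalize cocharacter P w (Pi.single j 1) = y at h2
      induction h2 using Submodule.span_induction with
      | mem Z hZ =>
        obtain ⟨Y, hY, rfl⟩ := hZ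
        exact hY.2
      | zero => exact Lif.zero
      | add a b _ _ ha hb => exact ha.add hb
      | smul t a _ ha => exact ha.smul t
    obtain ⟨W, hW, hW'⟩ := torus (lev := lev) (H := H) (P := P) ⟨hPw.sum, hPw.mul⟩ w fun j => by
      obtain ⟨x, hx⟩ := hgen j
      exact real_lift hgrp hx (gen_real hPw.real j)
    refine ⟨W, hW, fun c hcW => ?_⟩
    rw [span_mm]
    refine mem_span_comp fun lam => ?_
    have h2 := hc c
    rw [span_mm] at h2
    obtain ⟨Y, hY, h3⟩ := comp_of_span h2 lam
    refine ⟨Y, ⟨hY.1, ?_⟩, h3⟩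
    have h4 := PP_comp hgrp (hW' c hcW) lam
    rw [h3]
    convert h4 using 1
    refine Prod.ext ?_ rfl
    ext i j
    exact (map_zero (lamF lam)).symm
  · intro h2
    exact congrArg (mm A) (le_antisymm nn_le_hb (hb_le_nn hR h2))

/-! ### Corollaries -/

/-- The Lie algebra of the Hodge group. -/
def lieAlg {g : ℕ} (A : AbVar g) : Submodule ℚ (Mat g) := mm A A.NA

theorem mem_lieAlg {g : ℕ} {A : AbVar g} {X : Mat g} : X ∈ lieAlg A ↔ InLie A X := by
  obtain ⟨X, rfl⟩ := mat_surj A X
  rw [inLie_mat]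
  exact mem_mm A X

theorem hodge_lieAlg {g : ℕ} (A : AbVar g) : hodge A Complex.I ∈ complexSpan (lieAlg A) := by
  unfold lieAlg
  rw [span_mm]
  exact J_span J_NA

/-- The cocharacters of the compact tori in the Hodge group are in its Lie algebra. -/
theorem cocharacter_mem {g : ℕ} {A : AbVar g} {m n : ℕ} {P : Fin m → MatC g}
    {w : Fin m → Fin n → ℤ} (hPw : IsTorus P w) (hin : InHodgeGroup A P w) (c : Fin n → ℚ) :
    cocharacter P w c ∈ complexSpan (lieAlg A) := by
  have hN : ∀ j, gen P w j ∈ complexSpan (lieAlg A) := by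
    intro j
    unfold lieAlg
    rw [span_mm]
    refine mem_span_comp ?_
    refine NAc_of_curve (M := fun θ => tm P w (cur j θ)) ?_ (tm_deriv P w j)
      fun m ψ hψ θ => ?_
    · change tm P w (cur j 0) = 1
      rw [tm_cur, ← hPw.sum]
      refine Finset.sum_congr rfl fun a _ => ?_
      rw [Complex.ofReal_zero, zero_mul, Complex.exp_zero, one_smul]
    · obtain ⟨x, hx, hxz⟩ := hin _ (cur_norm j θ)
      have h2 := fx_of_hodgeGroup hψ hx
      rw [hxz] at h2
      exact h2
  rw [cocharacter_eq]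
  exact Submodule.sum_mem _ fun j _ => Submodule.smul_mem _ _ (hN j)

/-- `G` contains the Hodge group if `1 × exp(t J)` is in `G` for the complex structure `J`. -/
theorem contains_of_exp {r g : ℕ} {A : AbVar g} {G : Subgroup (GL (Betti r g) ℂ)}
    (hG : IsAlgebraicSubgroup G)
    (h : ∀ t : ℝ, Contains G (NormedSpace.exp ((t : ℂ) • hodge A Complex.I))) :
    ∀ x ∈ hodgeGroup A, Contains G (x : MatC g) := by
  have hle : hodgeGroup A ≤ G.comap (Units.map (blk r g)) := by
    refine sInf_le ⟨isAlg_comap hG, fun z hz => ?_⟩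
    obtain ⟨t, ht⟩ : ∃ t : ℝ, Complex.exp (t * Complex.I) = z := by
      refine ⟨Complex.arg z, ?_⟩
      have h2 := Complex.norm_mul_exp_arg_mul_I z
      rwa [hz, Complex.ofReal_one, one_mul] at h2
    obtain ⟨y, hy, hyM⟩ := h t
    have h3 : NormedSpace.exp ((t : ℂ) • hodge A Complex.I) = hm A z := by
      have h4 := Pool.Agent.H621.BC.exp_blk (r := 0) (A := A) t
      have h5 : (t : ℂ) • fromBlocks (0 : Matrix (Fin 0) (Fin 0) ℂ) 0 0 (hm A Complex.I) =
          bd ((0, (t : ℂ) • hm A Complex.I) : R2 0 (Fin (2 * g))) := by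
        rw [bd_apply, fromBlocks_smul, smul_zero, smul_zero, smul_zero]
      rw [h5, exp_bd, ht] at h4
      exact (fromBlocks_inj.1 h4).2.2.2
    have hz0 : z ≠ 0 := by
      rintro rfl
      rw [norm_zero] at hz
      exact zero_ne_one hz
    let x : GL (Fin (2 * g)) ℂ := ⟨hm A z, hm A z⁻¹, by
      rw [← hm_mul, mul_inv_cancel₀ hz0, hm_one], by
      rw [← hm_mul, inv_mul_cancel₀ hz0, hm_one]⟩
    refine ⟨x, ?_, rfl⟩
    rw [Subgroup.mem_comap]
    have hxy : Units.map (blk r g) x = y := by
      apply Units.ext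
      rw [hyM, h3]
      rfl
    rw [hxy]
    exact hy
  intro x hx
  exact ⟨_, hle hx, rfl⟩

section Cor

variable {r K g : ℕ} {C : Matrix (Fin r) (Fin r) ℂ} (hC : IsUnit C.det)
  {lev : Fin r → Fin K} (hlev : ∀ i j, lev j < lev i → C i j = 0) {A : AbVar g}
  {G : Subgroup (GL (Betti r g) ℂ)} (hG : IsAlgebraicSubgroup G) (hP : ContainsPeriods A C G)

include hC hlev hG hP

/-- **Corollary 1.** If all graded pieces of `M₀` have the rank one (for example if `M₀` is a mixed
Tate motive), and `A` is a factor of a determined abelian variety, then `1 × Hg(A) ⊆ G`. -/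
theorem rank_one (h1 : ∀ l : Fin K, Fintype.card {i // lev i = l} ≤ 1)
    (hA : ∃ (g' : ℕ) (B : AbVar g'), Determined B ∧ IsFactor A B) :
    ∀ x ∈ hodgeGroup A, Contains G (x : MatC g) := by
  obtain ⟨𝔥, 𝔫, -, -, -, -, hJ, -, -, hexp, -, heq⟩ := result r K g C hC lev hlev A G hG hP
  refine contains_of_exp hG fun t => hexp _ (Submodule.smul_mem _ _ ?_)
  rw [heq h1]
  exact hJ hA

/-- **Corollary 2.** If `A` is determined, then every compact torus of dimension `n` in the Hodge
group contains a torus `T` of dimension at least `n - ∑ l, ⌊r_l / 2⌋` with `1 × T ⊆ G`. -/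
theorem determined_torus (hA : Determined A) {m n : ℕ} {P : Fin m → MatC g}
    {w : Fin m → Fin n → ℤ} (hPw : IsTorus P w) (hin : InHodgeGroup A P w) :
    ∃ W : Submodule ℚ (Fin n → ℚ),
      n ≤ finrank ℚ W + ∑ l : Fin K, Fintype.card {i // lev i = l} / 2 ∧
        ∀ c : Fin n → ℤ, (fun j => (c j : ℚ)) ∈ W → ∀ z : ℂ, z ≠ 0 →
          Contains G (torusElement P w fun j => z ^ c j) := by
  obtain ⟨𝔥, 𝔫, h1, h2, h3, h4, -, -, -, hexp, htor, -⟩ := result r K g C hC lev hlev A G hG hP
  have hle : lieAlg A ≤ 𝔥 := fun X hX => hA 𝔥 h1 h2 h3 h4 X (mem_lieAlg.1 hX)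
  obtain ⟨W, hW, hW'⟩ := htor m n P w hPw fun c => by
    have h5 := cocharacter_mem hPw hin c
    unfold complexSpan at h5 ⊢
    refine Submodule.span_mono ?_ h5
    rintro _ ⟨Z, hZ, rfl⟩
    exact ⟨Z, hle hZ, rfl⟩
  refine ⟨W, hW, fun c hc z hz => ?_⟩
  have h2 := hexp _ ((complexSpan 𝔫).smul_mem (Complex.log z) (hW' _ hc))
  have h3 : NormedSpace.exp (Complex.log z • cocharacter P w fun j => (c j : ℚ)) =
      torusElement P w fun j => z ^ c j := by
    have hPr : Prj P := ⟨hPw.sum, hPw.mul⟩
    unfold cocharacter torusElement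
    rw [Finset.smul_sum]
    simp only [smul_smul]
    rw [hPr.exp]
    refine Finset.sum_congr rfl fun a _ => ?_
    congr 1
    rw [Finset.mul_sum, Complex.exp_sum]
    refine Finset.prod_congr rfl fun j _ => ?_
    have h4 : Complex.log z * ((w a j : ℂ) * (((c j : ℤ) : ℚ) : ℂ)) =
        ((c j * w a j : ℤ) : ℂ) * Complex.log z := by
      push_cast
      ring
    rw [h4, Complex.exp_int_mul, Complex.exp_log hz, _root_.zpow_mul]
  rw [h3] at h2
  exact h2

/-- **Corollary 3.** If `A` is determined, `Hg(A)` is simple over `ℚ`, and contains a compact torus of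
dimension greater than `∑ l, ⌊r_l / 2⌋`, then `1 × Hg(A) ⊆ G`. -/
theorem determined_simple (hA : Determined A) (hs : IsSimple A) {m n : ℕ}
    {P : Fin m → MatC g} {w : Fin m → Fin n → ℤ} (hPw : IsTorus P w) (hin : InHodgeGroup A P w)
    (heff : IsEffective P w) (hn : ∑ l : Fin K, Fintype.card {i // lev i = l} / 2 < n) :
    ∀ x ∈ hodgeGroup A, Contains G (x : MatC g) := by
  obtain ⟨𝔥, 𝔫, h1, h2, h3, h4, -, hid, hrc, hexp, htor, -⟩ :=
    result r K g C hC lev hlev A G hG hP
  have hle : lieAlg A ≤ 𝔥 := fun X hX => hA 𝔥 h1 h2 h3 h4 X (mem_lieAlg.1 hX)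
  have hmono : ∀ {𝔞 𝔟 : Submodule ℚ (Mat g)}, 𝔞 ≤ 𝔟 → complexSpan 𝔞 ≤ complexSpan 𝔟 := by
    intro 𝔞 𝔟 hab
    unfold complexSpan
    refine Submodule.span_mono ?_
    rintro _ ⟨Z, hZ, rfl⟩
    exact ⟨Z, hab hZ, rfl⟩
  obtain ⟨W, hW, hW'⟩ := htor m n P w hPw fun c => hmono hle (cocharacter_mem hPw hin c)
  have h5 : W ≠ ⊥ := by
    rintro rfl
    rw [finrank_bot] at hW
    omega
  obtain ⟨c, hc, hc0⟩ := Submodule.exists_mem_ne_zero_of_ne_bot h5
  rcases hs 𝔫 (fun Y hY => h1.1 Y (hid.1 hY))
    (fun X hX Y hY => hid.2 X (hle (mem_lieAlg.2 hX)) Y hY) hrc with h6 | h6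
  · exfalso
    obtain ⟨a, ha, ha'⟩ := heff c hc0
    have h7 : cocharacter P w c = 0 := by
      have h8 : complexSpan 𝔫 ≤ ⊥ := by
        unfold complexSpan
        rw [Submodule.span_le]
        rintro _ ⟨Z, hZ, rfl⟩
        rw [h6, Submodule.mem_bot] at hZ
        subst hZ
        change cplx 0 = 0
        unfold cplx
        ext i j
        simp
      exact h8 (hW' c hc)
    have h8 : cocharacter P w c * P a = (∑ j, (w a j : ℂ) * (c j : ℂ)) • P a := by
      unfold cocharacter
      rw [Finset.sum_mul, Finset.sum_eq_single a]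
      · rw [smul_mul_assoc, hPw.mul, if_pos rfl]
      · intro b _ hb
        rw [smul_mul_assoc, hPw.mul, if_neg hb, smul_zero]
      · intro h
        exact absurd (Finset.mem_univ _) h
    rw [h7, zero_mul] at h8
    rcases smul_eq_zero.1 h8.symm with h9 | h9
    · apply ha'
      exact_mod_cast h9
    · exact ha h9
  · refine contains_of_exp hG fun t => hexp _ (Submodule.smul_mem _ _ ?_)
    exact hmono (fun X hX => h6 X (mem_lieAlg.1 hX)) (hodge_lieAlg A)

end Cor

/-- The abelian varieties which are determined in the sense of the library (`DT.Det`), in particular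
those of the file `OneMotivesMumfordTate` of `MP_5d33ca_ag` (where the matrices act from the left),
are determined in the sense of this file. -/
theorem determined_of_det {g : ℕ} {A : AbVar g} (hA : Det A) : Determined A := by
  intro 𝔥 hsub hrc hsemi hcomm X hX
  obtain ⟨X, rfl⟩ := mat_surj A X
  let 𝔥' : Submodule ℚ (Module.End ℚ A.H1) := 𝔥.comap (matL A).toLinearMap
  have hmem : ∀ X : Module.End ℚ A.H1, mat A X ∈ 𝔥 ↔ X ∈ 𝔥' := fun _ => Iff.rfl
  have hmm : mm A 𝔥' = 𝔥 := by
    ext Y
    obtain ⟨Y, rfl⟩ := mat_surj A Y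
    rw [mem_mm, hmem]
  refine hA 𝔥' ⟨fun Y hY => (inLie_mat A).1 (hsub.1 _ hY), fun Y hY Z hZ => ?_, fun U hU => ?_,
    fun P hP Y hY => ?_⟩ (rc_iff'.2 fun Y hY S σ Q hS hQ => ?_) ((inLie_mat A).1 hX)
  · change mat A (Y * Z - Z * Y) ∈ 𝔥
    rw [mat_br]
    exact hsub.2 _ hZ _ hY
  · obtain ⟨U', h1, h2⟩ := hsemi U (fun Y hY u hu => by
      obtain ⟨Y, rfl⟩ := mat_surj A Y
      rw [vecMul_mat]
      exact hU Y hY u hu)
    refine ⟨U', fun Y hY u hu => ?_, h2⟩
    have h3 := h1 _ hY u hu
    rwa [show (matL A).toLinearMap Y = mat A Y from rfl, vecMul_mat] at h3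
  · refine mat_inj A ?_
    rw [mat_mul, mat_mul]
    refine (hcomm _ (fun Z hZ => ?_) _ ((inLie_mat A).2 hY)).symm
    obtain ⟨Z, rfl⟩ := mat_surj A Z
    rw [← mat_mul, ← mat_mul]
    exact congrArg (mat A) (hP Z hZ).symm
  · rw [← span_mm, hmm, ← cplx_mat]
    rw [← cplx_mat] at hS
    exact hrc _ hY S σ Q hS hQ

end Pool.Agent.Results.MP_57341d_ag.RankBound
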